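import Pool.Agent.P8H62.SC.A
import Pool.Agent.P8H62.SC.C3

/-!
# The congruence modulo `p ^ 6` (Q1)

For every prime `p > 3`,
`∑_{n<p} (3 n^2 + n) / 16^n * s_n ≡ - 4 p^4 q_p(2) + 6 p^5 q_p(2)^2 (mod p^6)`.
-/

namespace Pool.Agent.Results.MP_4af00a_nt.CongruenceModSixthPower

open Finset

/-- `s_n = ∑_{k=0}^{n} C(n,k)^2 C(2k,k) C(2(n-k),n-k)`. -/
def s (n : ℕ) : ℕ :=
  ∑ k ∈ range (n + 1), (n.choose k) ^ 2 * (2 * k).choose k * (2 * (n - k)).choose (n - k)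

/-- the Fermat quotient `q_p(2) = (2^(p-1) - 1) / p` -/
def q (p : ℕ) : ℚ := (2 ^ (p - 1) - 1) / p

/-- `x ≡ y (mod p^j)` for rational numbers: both denominators are prime to `p`, and `x - y` has
`p`-adic valuation at least `j` (the valuation of `0` is infinite). -/
def CongMod (p j : ℕ) (x y : ℚ) : Prop :=
  ¬ p ∣ x.den ∧ ¬ p ∣ y.den ∧ (x = y ∨ (j : ℤ) ≤ padicValRat p (x - y))

lemma den_of_eq {p : ℕ} (x : ℚ) (a : ℤ) (b : ℕ) (hb : ¬ p ∣ b) (h : x = a / b) :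
    ¬ p ∣ x.den := by
  intro hd
  apply hb
  have h1 : x.den ∣ b := by
    rw [h]
    have := Rat.den_dvd a b
    exact_mod_cast this
  exact hd.trans h1

theorem result (p : ℕ) (hp : p.Prime) (h3 : 3 < p) :
    CongMod p 6 (∑ n ∈ range p, (3 * (n : ℚ) ^ 2 + n) / 16 ^ n * s n)
      (- 4 * p ^ 4 * q p + 6 * p ^ 5 * q p ^ 2) := by
  have : Fact p.Prime := ⟨hp⟩
  obtain ⟨m, hm⟩ : ∃ m, p = 2 * (m + 1) + 1 := by
    have h2 : p % 2 = 1 := hp.eq_two_or_odd.resolve_left (by omega)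
    exact ⟨(p - 3) / 2, by omega⟩
  have hZ := Pool.Agent.P8H62.SC.Z_mod Pool.Agent.P8H62.SC.part_A Pool.Agent.P8H62.SC.part_B
    hp h3 hm
  obtain ⟨M, hM⟩ : ∃ M, p = M + 2 := ⟨p - 2, by omega⟩
  have hM2 : p - 2 = M := by omega
  rw [hM2] at hZ
  set Q : ℕ := Pool.Agent.P8H62.SC.q p with hQ
  have h2p : 2 ^ (p - 1) = 1 + p * Q := Pool.Agent.P8H62.SC.two_pow hp h3
  -- the integer form
  obtain ⟨c, hc⟩ : ∃ c : ℤ, ((p : ℤ) - 1) * (Pool.Agent.R499.Domb.Z M : ℤ) =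
      -2 * p * Q - 5 * p ^ 2 * Q ^ 2 + p ^ 3 * c := by
    have h4 : ((((p : ℤ) - 1) * (Pool.Agent.R499.Domb.Z M : ℤ) -
        (-2 * p * Q - 5 * p ^ 2 * Q ^ 2) : ℤ) : ZMod (p ^ 3)) = 0 := by
      push_cast
      rw [hZ]
      ring
    rw [ZMod.intCast_zmod_eq_zero_iff_dvd] at h4
    obtain ⟨c, hc⟩ := h4
    refine ⟨c, ?_⟩
    push_cast at hc
    linear_combination hc
  have hp0 : (p : ℚ) ≠ 0 := by exact_mod_cast hp.ne_zero
  -- the Fermat quotient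
  have hq : q p = Q := by
    unfold q
    have : (2 : ℚ) ^ (p - 1) = 1 + p * Q := by exact_mod_cast h2p
    rw [this]
    field_simp
    ring
  have h16 : (16 : ℚ) ^ (p - 1) = (1 + p * Q) ^ 4 := by
    have : (2 : ℚ) ^ (p - 1) = 1 + p * Q := by exact_mod_cast h2p
    rw [← this, ← pow_mul, mul_comm, pow_mul]
    norm_num
  -- the sum
  have hs : ∀ n, (s n : ℚ) = Pool.Agent.R499.Domb.s n := by
    intro n
    unfold s Pool.Agent.R499.Domb.s
    rw [← Finset.Nat.sum_antidiagonal_swap, Finset.Nat.sum_antidiagonal_eq_sum_range_succ_mk]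
    push_cast
    apply sum_congr rfl
    intro k hk
    rw [mem_range] at hk
    simp only [Prod.swap_prod_mk]
    unfold Pool.Agent.R499.Domb.t Pool.Agent.R499.Domb.c
    rw [show k + (n - k) = n by omega]
    rfl
  have hsum : (∑ n ∈ range p, (3 * (n : ℚ) ^ 2 + n) / 16 ^ n * s n) * 16 ^ (p - 1) =
      2 * p ^ 3 * ((p - 1) * (Pool.Agent.R499.Domb.Z M : ℚ)) := by
    have h := Pool.Agent.R499.Domb.V_eq_Z M
    unfold Pool.Agent.R499.Domb.V at h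
    have e : 2 * (p : ℚ) ^ 3 * ((p - 1) * (Pool.Agent.R499.Domb.Z M : ℚ)) =
        2 * ((M : ℚ) + 2) ^ 3 * (M + 1) * (Pool.Agent.R499.Domb.Z M : ℚ) := by
      rw [hM]; push_cast; ring
    rw [e, ← h, ← hM, sum_mul]
    apply sum_congr rfl
    intro n hn
    have hn' := mem_range.1 hn
    rw [hs, show p - 1 = (p - 1 - n) + n by omega, pow_add, show (p - 1 - n) + n - n = p - 1 - n by omega]
    field_simp
  set S : ℚ := ∑ n ∈ range p, (3 * (n : ℚ) ^ 2 + n) / 16 ^ n * s n with hS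
  have hcQ : ((p : ℚ) - 1) * (Pool.Agent.R499.Domb.Z M : ℚ) =
      -2 * p * Q - 5 * p ^ 2 * Q ^ 2 + p ^ 3 * c := by exact_mod_cast hc
  have hb : ¬ p ∣ 16 ^ (p - 1) := by
    intro h
    have h5 := hp.dvd_of_dvd_pow h
    have h6 : p ∣ 2 ^ 4 := h5
    have h7 := Nat.le_of_dvd (by norm_num) (hp.dvd_of_dvd_pow h6)
    omega
  have hb0 : (16 : ℚ) ^ (p - 1) ≠ 0 := by positivity
  have hSv : S = 2 * p ^ 3 * (-2 * p * Q - 5 * p ^ 2 * Q ^ 2 + p ^ 3 * c) / 16 ^ (p - 1) := by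
    rw [eq_div_iff hb0, hsum, hcQ]
  have hdiff : S - (- 4 * p ^ 4 * q p + 6 * p ^ 5 * q p ^ 2) =
      p ^ 6 * ((2 * c - 20 * p * Q ^ 4 - 20 * p ^ 2 * Q ^ 5 - 6 * p ^ 3 * Q ^ 6 : ℤ) : ℚ) / 16 ^ (p - 1) := by
    rw [hSv, hq, eq_div_iff hb0, sub_mul, div_mul_cancel₀ _ hb0, h16]
    push_cast
    ring
  refine ⟨?_, ?_, ?_⟩
  · apply den_of_eq S (2 * p ^ 3 * (-2 * p * Q - 5 * p ^ 2 * Q ^ 2 + p ^ 3 * c)) (16 ^ (p - 1)) hb
    rw [hSv]
    push_cast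
    ring
  · apply den_of_eq _ (- 4 * p ^ 4 * Q + 6 * p ^ 5 * Q ^ 2) 1 (by simpa using hp.one_lt.ne')
    rw [hq]
    push_cast
    ring
  · generalize (2 * c - 20 * p * Q ^ 4 - 20 * p ^ 2 * Q ^ 5 - 6 * p ^ 3 * Q ^ 6 : ℤ) = A at hdiff
    rcases eq_or_ne A 0 with hA | hA
    · left
      rw [hA] at hdiff
      have : S - (- 4 * p ^ 4 * q p + 6 * p ^ 5 * q p ^ 2) = 0 := by
        rw [hdiff]; simp
      linarith
    · right
      have hA' : (A : ℚ) ≠ 0 := by exact_mod_cast hA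
      have hb1 : padicValRat p ((16 : ℚ) ^ (p - 1)) = 0 := by
        have : padicValRat p (((16 ^ (p - 1) : ℕ)) : ℚ) = 0 := by
          rw [padicValRat.of_nat, padicValNat.eq_zero_of_not_dvd hb]
          rfl
        exact_mod_cast this
      rw [hdiff, padicValRat.div (mul_ne_zero (pow_ne_zero _ hp0) hA') hb0,
        padicValRat.mul (pow_ne_zero _ hp0) hA', padicValRat.pow, padicValRat.self hp.one_lt, hb1,
        padicValRat.of_int]
      push_cast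
      have : (0 : ℤ) ≤ (padicValInt p A : ℤ) := by positivity
      linarith

end Pool.Agent.Results.MP_4af00a_nt.CongruenceModSixthPower
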